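import Pool.Agent.Helper6.NX.GoalsD

set_option autoImplicit false

namespace Pool.Agent.Helper40.NX

open Equiv Pool.Agent.Helper6.NX

theorem inv_self {n : ℕ} (V : Perm (Fin n)) (u : Fin n) : V⁻¹ (V u) = u := V.symm_apply_apply u

theorem self_inv {n : ℕ} (V : Perm (Fin n)) (u : Fin n) : V (V⁻¹ u) = u := V.apply_symm_apply u

/-- permutations with prescribed values on `U` -/
theorem card_agree {n : ℕ} (U : Finset (Fin n)) (X : Finset (Perm (Fin n)))
    (hX : ∀ e ∈ X, ∀ e' ∈ X, ∀ u ∈ U, e u = e' u) : X.card ≤ (n - U.card).factorial := by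
  classical
  rcases X.eq_empty_or_nonempty with h0 | ⟨e0, he0⟩
  · rw [h0]
    exact Nat.zero_le _
  · have h1 : ∀ e ∈ X, ∀ a, ¬ (a ∉ U) → (e0⁻¹ * e) a = a := by
      intro e he a ha
      rw [not_not] at ha
      rw [Perm.mul_apply, hX e he e0 he0 a ha, inv_self]
    have h2 : X.card ≤ Fintype.card {f : Perm (Fin n) // ∀ a, ¬ (a ∉ U) → f a = a} := by
      rw [← Fintype.card_coe X]
      refine Fintype.card_le_of_injective
        (fun e : X => (⟨e0⁻¹ * e.1, h1 e.1 e.2⟩ :
          {f : Perm (Fin n) // ∀ a, ¬ (a ∉ U) → f a = a})) ?_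
      intro e e' hee
      have h3 := congrArg Subtype.val hee
      exact Subtype.ext (mul_left_cancel h3)
    refine le_trans h2 ?_
    rw [← Fintype.card_congr (Perm.subtypeEquivSubtypePerm (fun a => a ∉ U)), Fintype.card_perm]
    refine Nat.factorial_le (le_of_eq ?_)
    rw [Fintype.card_subtype_compl, Fintype.card_fin, Fintype.card_coe]

theorem thmPAIRA : S_PAIRA := by
  classical
  intro n V V' A
  obtain ⟨S, hS⟩ : ∃ S, S = A.filter (fun u => ∀ k : ℕ, (V ^ k) u ∈ A) := ⟨_, rfl⟩
  obtain ⟨Q, hQ⟩ : ∃ Q, Q = A \ im V⁻¹ A := ⟨_, rfl⟩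
  have hSA : S ⊆ A := by
    rw [hS]
    exact Finset.filter_subset _ _
  have hSV : ∀ u ∈ S, V u ∈ S := by
    intro u hu
    rw [hS, Finset.mem_filter] at hu ⊢
    refine ⟨?_, fun k => ?_⟩
    · have := hu.2 1
      rwa [pow_one] at this
    · have := hu.2 (k + 1)
      rwa [pow_succ, Perm.mul_apply] at this
  have hcard : ∀ D : Finset (Fin n), ∀ W : Perm (Fin n), (im W D).card = D.card := by
    intro D W
    unfold im
    exact Finset.card_image_of_injective D W.injective
  have hSS : im V S = S := by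
    refine Finset.eq_of_subset_of_card_le ?_ (le_of_eq (hcard S V).symm)
    intro x hx
    unfold im at hx
    rw [Finset.mem_image] at hx
    obtain ⟨u, hu, rfl⟩ := hx
    exact hSV u hu
  have hmax : ∀ S' : Finset (Fin n), S' ⊆ A → im V S' = S' → S' ⊆ S := by
    intro S' hS' hV x hx
    have h1 : ∀ k : ℕ, ∀ y ∈ S', (V ^ k) y ∈ S' := by
      intro k
      induction k with
      | zero => intro y hy; exact hy
      | succ k ih =>
        intro y hy
        rw [pow_succ, Perm.mul_apply]
        apply ih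
        rw [← hV]
        unfold im
        exact Finset.mem_image_of_mem V hy
    rw [hS, Finset.mem_filter]
    exact ⟨hS' hx, fun k => hS' (h1 k x hx)⟩
  have hQA : Q.card ≤ A.card := by
    rw [hQ]
    exact Finset.card_le_card Finset.sdiff_subset
  have hU : (im V⁻¹ A ∪ A).card = A.card + Q.card := by
    rw [← Finset.sdiff_union_self_eq_union, Finset.card_union_of_disjoint Finset.sdiff_disjoint,
      Finset.card_sdiff_comm (hcard A V⁻¹), hQ, add_comm]
  have hUn : A.card + Q.card ≤ n := by
    rw [← hU]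
    calc (im V⁻¹ A ∪ A).card ≤ Fintype.card (Fin n) := Finset.card_le_univ _
      _ = n := Fintype.card_fin n
  refine ⟨S, hSA, hSS, hmax, Q.card, hQA, hUn, ?_⟩
  -- the intertwining permutations
  obtain ⟨X, hX⟩ : ∃ X : Finset (Perm (Fin n)),
      X = Finset.univ.filter (fun e => ∀ u ∈ A, e (V⁻¹ u) = V' (e u)) := ⟨_, rfl⟩
  have hXc : Nat.card {e : Perm (Fin n) // ∀ u ∈ A, e (V⁻¹ u) = V' (e u)} = X.card := by
    rw [Nat.card_eq_fintype_card, Fintype.card_subtype, hX]
  have hXm : ∀ e ∈ X, ∀ u ∈ A, e (V⁻¹ u) = V' (e u) := by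
    intro e he
    rw [hX, Finset.mem_filter] at he
    exact he.2
  have hback : ∀ e ∈ X, ∀ u, V u ∈ A → e u = V' (e (V u)) := by
    intro e he u hu
    have := hXm e he (V u) hu
    rwa [inv_self] at this
  obtain ⟨T, hT⟩ : ∃ T, T = {e : S ↪ Fin n // ∀ u v : S, V v = u → e v = V' (e u)} := ⟨_, rfl⟩
  -- agreement on `A`
  have hagree : ∀ e ∈ X, ∀ e' ∈ X, (∀ u ∈ S, e u = e' u) → (∀ u ∈ Q, e u = e' u) →
      ∀ u ∈ im V⁻¹ A ∪ A, e u = e' u := by
    intro e he e' he' h1 h2
    have h3 : ∀ k : ℕ, ∀ u ∈ A, (V ^ k) u ∉ A → e u = e' u := by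
      intro k
      induction k with
      | zero =>
        intro u hu hu'
        exact absurd hu hu'
      | succ k ih =>
        intro u hu hu'
        rw [pow_succ, Perm.mul_apply] at hu'
        by_cases h4 : V u ∈ A
        · rw [hback e he u h4, hback e' he' u h4, ih (V u) h4 hu']
        · apply h2
          rw [hQ, Finset.mem_sdiff]
          refine ⟨hu, fun h5 => h4 ?_⟩
          unfold im at h5
          rw [Finset.mem_image] at h5
          obtain ⟨a, ha, hau⟩ := h5
          rw [← hau, self_inv]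
          exact ha
    have h4 : ∀ u ∈ A, e u = e' u := by
      intro u hu
      by_cases h5 : u ∈ S
      · exact h1 u h5
      · rw [hS, Finset.mem_filter, not_and, not_forall] at h5
        obtain ⟨k, hk⟩ := h5 hu
        exact h3 k u hu hk
    intro u hu
    rw [Finset.mem_union] at hu
    rcases hu with hu | hu
    · unfold im at hu
      rw [Finset.mem_image] at hu
      obtain ⟨a, ha, rfl⟩ := hu
      rw [hXm e he a ha, hXm e' he' a ha, h4 a ha]
    · exact h4 u hu
  -- the data
  have hprop : ∀ e : X, ∀ u v : S, V v = u →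
      ((Function.Embedding.subtype (fun x => x ∈ S)).trans e.1.toEmbedding) v =
        V' (((Function.Embedding.subtype (fun x => x ∈ S)).trans e.1.toEmbedding) u) := by
    intro e u v huv
    have h1 : V (v : Fin n) ∈ A := by
      rw [huv]
      exact hSA u.2
    have h2 := hback e.1 e.2 v h1
    rw [huv] at h2
    exact h2
  obtain ⟨g, hg⟩ : ∃ g : X → {e : S ↪ Fin n // ∀ u v : S, V v = u → e v = V' (e u)} × (Q → Fin n),
      g = fun e => (⟨(Function.Embedding.subtype (fun x => x ∈ S)).trans e.1.toEmbedding,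
        hprop e⟩, fun q => e.1 q) := ⟨_, rfl⟩
  have hfib : ∀ a ∈ (Finset.univ : Finset X).image g,
      ((Finset.univ : Finset X).filter (fun x => g x = a)).card ≤
        (n - (A.card + Q.card)).factorial := by
    intro a _
    rw [← hU]
    rw [← Finset.card_map (Function.Embedding.subtype (fun x => x ∈ X))]
    apply card_agree
    intro e he e' he'
    rw [Finset.mem_map] at he he'
    obtain ⟨x, hx, rfl⟩ := he
    obtain ⟨x', hx', rfl⟩ := he'
    rw [Finset.mem_filter] at hx hx'
    have h1 : g x = g x' := hx.2.trans hx'.2.symm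
    rw [hg] at h1
    have h2 := (Prod.ext_iff.1 h1).1
    have h3 := (Prod.ext_iff.1 h1).2
    refine hagree x.1 x.2 x'.1 x'.2 ?_ ?_
    · intro u hu
      have h4 := congrArg Subtype.val h2
      have h5 := DFunLike.congr_fun h4 (⟨u, hu⟩ : S)
      exact h5
    · intro u hu
      exact congrFun h3 (⟨u, hu⟩ : Q)
  have hmain := Finset.card_le_mul_card_image (f := g) (Finset.univ : Finset X) _ hfib
  have hcardX : (Finset.univ : Finset X).card = X.card := by
    rw [Finset.card_univ, Fintype.card_coe]
  have himg : ((Finset.univ : Finset X).image g).card ≤ n ^ Q.card * emb V V' S := by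
    refine le_trans (Finset.card_le_univ _) (le_of_eq ?_)
    rw [Fintype.card_prod, Fintype.card_fun, Fintype.card_fin, Fintype.card_coe, mul_comm]
    unfold emb
    rw [Nat.card_eq_fintype_card]
  have hfin : X.card ≤ (n - (A.card + Q.card)).factorial * (n ^ Q.card * emb V V' S) := by
    rw [← hcardX]
    exact le_trans hmain (Nat.mul_le_mul_left _ himg)
  rw [hXc]
  have hcast : (X.card : ℝ) ≤
      ((n - (A.card + Q.card)).factorial * (n ^ Q.card * emb V V' S) : ℕ) := by
    exact_mod_cast hfin
  refine le_trans hcast (le_of_eq ?_)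
  push_cast
  ring

end Pool.Agent.Helper40.NX
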