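import Pool.Agent.Helper6.NX.GoalsD

set_option autoImplicit false

namespace Pool.Agent.Helper40.NX

open Matrix Equiv Pool.Agent.Helper6.NX Pool.Agent.Helper15.An
open scoped ComplexOrder

theorem law_smul {Ω α M : Type} [Fintype Ω] [Fintype α] [AddCommGroup M] [Module ℝ M]
    (P : Ω → ℝ) (F : Ω → α) (m : α → M) :
    ∑ a, law P F a • m a = ∑ ω, P ω • m (F ω) := by
  classical
  unfold law
  simp only [Finset.sum_smul]
  rw [Finset.sum_comm]
  refine Finset.sum_congr rfl fun ω _ => ?_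
  rw [Finset.sum_eq_single (F ω)]
  · rw [if_pos rfl]
  · intro a _ ha
    rw [if_neg (fun h => ha h.symm), zero_smul]
  · intro h
    exact absurd (Finset.mem_univ _) h

theorem isLaw_prd {Ω Ω' : Type} [Fintype Ω] [Fintype Ω'] (P : Ω → ℝ) (Q : Ω' → ℝ)
    (hP : IsLaw P) (hQ : IsLaw Q) : IsLaw (prd P Q) := by
  refine ⟨fun z => mul_nonneg (hP.1 z.1) (hQ.1 z.2), ?_⟩
  rw [Fintype.sum_prod_type]
  unfold prd
  simp only
  rw [← Finset.sum_mul_sum, hP.2, hQ.2, one_mul]

theorem isLaw_unif (n : ℕ) : IsLaw (unif (Perm (Fin n))) := by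
  unfold unif
  refine ⟨fun _ => by positivity, ?_⟩
  rw [Finset.sum_const, Finset.card_univ, nsmul_eq_mul, mul_inv_cancel₀]
  exact_mod_cast Fintype.card_ne_zero

theorem unif_eq (n : ℕ) (y : Perm (Fin n)) : unif (Perm (Fin n)) y = (n.factorial : ℝ)⁻¹ := by
  unfold unif
  rw [Fintype.card_perm, Fintype.card_fin]

/-- expansion of a sum against `mixc` -/
theorem mixc_smul {n : ℕ} {M : Type} [AddCommGroup M] [Module ℝ M] (κ κ' : Perm (Fin n) → ℝ)
    (m : Perm (Fin n) → M) :
    ∑ g, mixc κ κ' g • m g = ∑ y : Perm (Fin n), ∑ g, ∑ h,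
      ((n.factorial : ℝ)⁻¹ * (κ g * κ' h)) • m (g * (y * h * y⁻¹)) := by
  unfold mixc
  rw [law_smul, Fintype.sum_prod_type]
  refine Finset.sum_congr rfl fun y _ => ?_
  rw [Fintype.sum_prod_type]
  refine Finset.sum_congr rfl fun g _ => ?_
  refine Finset.sum_congr rfl fun h _ => ?_
  unfold prd
  simp only
  rw [unif_eq]

theorem mixc_mul {n : ℕ} (κ κ' : Perm (Fin n) → ℝ) (φ : Perm (Fin n) → ℝ) :
    ∑ g, mixc κ κ' g * φ g =
    ∑ g, ∑ h, κ g * κ' h * ((n.factorial : ℝ)⁻¹ * ∑ y : Perm (Fin n), φ (g * (y * h * y⁻¹))) := by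
  have h1 := mixc_smul κ κ' φ
  simp only [smul_eq_mul] at h1
  rw [h1, Finset.sum_comm]
  refine Finset.sum_congr rfl fun g _ => ?_
  rw [Finset.sum_comm]
  refine Finset.sum_congr rfl fun h _ => ?_
  rw [Finset.mul_sum, Finset.mul_sum]
  refine Finset.sum_congr rfl fun y _ => ?_
  ring

theorem thmMX (hl5 : S_L5) : S_MX := by
  classical
  intro n κ κ' hκ hκ'
  have hP : IsLaw (prd (unif (Perm (Fin n))) (prd κ κ')) :=
    isLaw_prd _ _ (isLaw_unif n) (isLaw_prd _ _ hκ hκ')
  refine ⟨?_, ?_, ?_, ?_, mixc_mul κ κ'⟩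
  · unfold mixc
    exact (hl5 _ _ (Perm (Fin n)) _ _ (fun g => g) hP).1
  · intro h1 h2 g hg
    unfold mixc law
    refine Finset.sum_eq_zero fun z _ => ?_
    split_ifs with h3
    · unfold prd
      by_cases h4 : z.2.1 ∈ Alt n
      · have h5 : z.2.2 ∉ Alt n := by
          intro h5
          apply hg
          rw [← h3]
          exact Subgroup.mul_mem _ h4 ((inferInstance : (alternatingGroup (Fin n)).Normal).conj_mem
            z.2.2 h5 z.1)
        rw [h2 _ h5, mul_zero, mul_zero]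
      · rw [h1 _ h4, zero_mul, mul_zero]
    · rfl
  · intro j c hc a b
    have e1 : ∀ (ω : Perm (Fin n) → ℝ) (a' : Fin j ↪ Fin n), prT ω a' b =
        ∑ g, ω g * (if ∀ i, g (a' i) = b i then 1 else 0) := by
      intro ω a'
      unfold prT
      rw [Finset.sum_filter]
      refine Finset.sum_congr rfl fun g _ => ?_
      rw [mul_ite, mul_one, mul_zero]
    rw [e1, mixc_mul]
    have e2 : ∑ g, ∑ h, κ g * κ' h * ((n.factorial : ℝ)⁻¹ * ∑ y : Perm (Fin n),
        (if ∀ i, (g * (y * h * y⁻¹)) (a i) = b i then (1 : ℝ) else 0)) =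
        ∑ h, ∑ y : Perm (Fin n), (κ' h * (n.factorial : ℝ)⁻¹) *
          prT κ (a.trans (y * h * y⁻¹).toEmbedding) b := by
      rw [Finset.sum_comm]
      refine Finset.sum_congr rfl fun h _ => ?_
      simp only [e1, Finset.mul_sum]
      rw [Finset.sum_comm]
      refine Finset.sum_congr rfl fun y _ => ?_
      refine Finset.sum_congr rfl fun g _ => ?_
      have e3 : (∀ i, (g * (y * h * y⁻¹)) (a i) = b i) ↔
          (∀ i, g ((a.trans (y * h * y⁻¹).toEmbedding) i) = b i) := Iff.rfl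
      rw [if_congr e3 rfl rfl]
      ring
    rw [e2]
    calc ∑ h, ∑ y : Perm (Fin n), (κ' h * (n.factorial : ℝ)⁻¹) *
          prT κ (a.trans (y * h * y⁻¹).toEmbedding) b
        ≤ ∑ h, ∑ y : Perm (Fin n), (κ' h * (n.factorial : ℝ)⁻¹) * c := by
          refine Finset.sum_le_sum fun h _ => Finset.sum_le_sum fun y _ => ?_
          exact mul_le_mul_of_nonneg_left (hc _ _) (mul_nonneg (hκ'.1 h) (by positivity))
      _ = c := by
          simp only [Finset.sum_const, Finset.card_univ, Fintype.card_perm, Fintype.card_fin,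
            nsmul_eq_mul]
          have hn : (n.factorial : ℝ) ≠ 0 := by
            exact_mod_cast Nat.factorial_ne_zero n
          have e4 : ∀ h, (n.factorial : ℝ) * (κ' h * (n.factorial : ℝ)⁻¹ * c) = κ' h * c := by
            intro h
            field_simp
          simp only [e4]
          rw [← Finset.sum_mul, hκ'.2, one_mul]
  · intro D ρ hρ
    have e0 : wop ρ (mixc κ κ') = ∑ g, mixc κ κ' g • ρ g := rfl
    rw [e0, mixc_smul]
    have e1 : ∀ y : Perm (Fin n), ∑ g, ∑ h,
        ((n.factorial : ℝ)⁻¹ * (κ g * κ' h)) • ρ (g * (y * h * y⁻¹)) =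
        (n.factorial : ℝ)⁻¹ • (wop ρ κ * (ρ y * wop ρ κ' * (ρ y)ᴴ)) := by
      intro y
      unfold wop
      simp only [Finset.sum_mul, Finset.mul_sum, Finset.smul_sum, Matrix.smul_mul, Matrix.mul_smul,
        smul_smul, map_mul, rho_conj ρ hρ.unit y]
      rw [Finset.sum_comm]
      refine Finset.sum_congr rfl fun g _ => ?_
      refine Finset.sum_congr rfl fun h _ => ?_
      congr 1
      ring
    simp only [e1]
    rw [← Finset.smul_sum, ← Finset.mul_sum, hρ.schur, Matrix.mul_smul, Matrix.mul_one]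
    ext i k
    rw [Matrix.smul_apply, Matrix.smul_apply, Matrix.smul_apply, Complex.real_smul, smul_eq_mul,
      smul_eq_mul, Fintype.card_perm, Fintype.card_fin]
    have hn : (n.factorial : ℂ) ≠ 0 := by
      exact_mod_cast Nat.factorial_ne_zero n
    have hD : (D : ℂ) ≠ 0 := by
      exact_mod_cast hρ.pos.ne'
    push_cast
    field_simp

end Pool.Agent.Helper40.NX
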